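import Mathlib

/-!
# MP_c418e9_an: half-log-concavity of the first Dirichlet eigenfunction (Q1 is false)

Counterexample: the triangle `Ω = {0 < y < x < π}` in the plane with its first eigenfunction
`φ(x,y) = (3√3/4) sin x sin y (cos y - cos x)` (eigenvalue `5`), normalised by `max φ = 1`.
-/

open Set Filter Topology

namespace Pool.Agent.Results.MP_c418e9_an.Triangle

/-- Euclidean space. -/
abbrev E (N : ℕ) := EuclideanSpace ℝ (Fin N)

/-- The Laplacian: the sum of the second derivatives in the coordinate directions. -/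
noncomputable def lap {N : ℕ} (u : E N → ℝ) (x : E N) : ℝ :=
  ∑ i : Fin N, iteratedDeriv 2 (fun t : ℝ => u (x + t • EuclideanSpace.single i (1 : ℝ))) 0

/-- `u` is a (classical) Dirichlet eigenfunction of `-Δ` in `Ω` with eigenvalue `μ`. -/
structure IsEigenpair {N : ℕ} (Ω : Set (E N)) (μ : ℝ) (u : E N → ℝ) : Prop where
  smooth : ContDiffOn ℝ 2 u Ω
  cont : ContinuousOn u (closure Ω)
  eqn : ∀ x ∈ Ω, -lap u x = μ * u x
  bdry : ∀ x ∈ frontier Ω, u x = 0
  nonzero : ∃ x ∈ Ω, u x ≠ 0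

/-- `l` is the first (smallest) Dirichlet eigenvalue of `-Δ` in `Ω`. -/
def IsFirstEigenvalue {N : ℕ} (Ω : Set (E N)) (l : ℝ) : Prop :=
  (∃ u, IsEigenpair Ω l u) ∧ ∀ μ u, IsEigenpair Ω μ u → l ≤ μ

/-- `φ` is a positive first Dirichlet eigenfunction of `-Δ` in `Ω`. -/
def IsPositiveFirstEigenfunction {N : ℕ} (Ω : Set (E N)) (φ : E N → ℝ) : Prop :=
  (∃ l, IsFirstEigenvalue Ω l ∧ IsEigenpair Ω l φ) ∧ ∀ x ∈ Ω, 0 < φ x

/-- The trigonometric function on the plane. -/
noncomputable def F (a p q : ℝ) (X : E 2) : ℝ :=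
  Real.sin (a * X 0 + p) * Real.sin (a * X 1 + q) * (Real.cos (a * X 1 + q) - Real.cos (a * X 0 + p))

/-- The triangle. -/
def Tri : Set (E 2) := {X | 0 < X 1 ∧ X 1 < X 0 ∧ X 0 < Real.pi}

lemma contDiff_F (a p q : ℝ) : ContDiff ℝ 2 (F a p q) := by
  have h0 : ContDiff ℝ 2 (fun X : E 2 => X 0) := by fun_prop
  have h1 : ContDiff ℝ 2 (fun X : E 2 => X 1) := by fun_prop
  unfold F
  fun_prop

lemma iter2 {g g' g'' : ℝ → ℝ} (h1 : ∀ t, HasDerivAt g (g' t) t) (h2 : ∀ t, HasDerivAt g' (g'' t) t)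
    (t : ℝ) : iteratedDeriv 2 g t = g'' t := by
  rw [iteratedDeriv_succ, iteratedDeriv_one]
  have : deriv g = g' := funext fun s => (h1 s).deriv
  rw [this]
  exact (h2 t).deriv

lemma lap_F (a p q : ℝ) (X : E 2) : lap (F a p q) X = -5 * a ^ 2 * F a p q X := by
  unfold lap
  rw [Fin.sum_univ_two]
  set A := Real.sin (a * X 0 + p) with hA
  set B := Real.sin (a * X 1 + q) with hB
  set D := Real.cos (a * X 1 + q) with hD
  set C := Real.cos (a * X 0 + p) with hC
  have e0 : (fun t : ℝ => F a p q (X + t • EuclideanSpace.single 0 (1 : ℝ))) =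
      fun t : ℝ => Real.sin (a * (X 0 + t) + p) * B * (D - Real.cos (a * (X 0 + t) + p)) := by
    funext t
    simp [F, hB, hD]
  have e1 : (fun t : ℝ => F a p q (X + t • EuclideanSpace.single 1 (1 : ℝ))) =
      fun t : ℝ => A * Real.sin (a * (X 1 + t) + q) * (Real.cos (a * (X 1 + t) + q) - C) := by
    funext t
    simp [F, hA, hC]
  have hlin : ∀ (x r t : ℝ), HasDerivAt (fun t : ℝ => a * (x + t) + r) a t := by
    intro x r t
    have := (((hasDerivAt_id t).const_add x).const_mul a).add_const r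
    simpa using this
  have hs : ∀ (x r t : ℝ), HasDerivAt (fun t : ℝ => Real.sin (a * (x + t) + r))
      (Real.cos (a * (x + t) + r) * a) t := fun x r t => (hlin x r t).sin
  have hc : ∀ (x r t : ℝ), HasDerivAt (fun t : ℝ => Real.cos (a * (x + t) + r))
      (-Real.sin (a * (x + t) + r) * a) t := fun x r t => (hlin x r t).cos
  rw [e0, e1]
  rw [iter2 (g' := fun t => a * B * (Real.cos (a * (X 0 + t) + p) * D
        - Real.cos (a * (X 0 + t) + p) ^ 2 + Real.sin (a * (X 0 + t) + p) ^ 2))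
      (g'' := fun t => a ^ 2 * B * (-D * Real.sin (a * (X 0 + t) + p)
        + 4 * Real.sin (a * (X 0 + t) + p) * Real.cos (a * (X 0 + t) + p)))]
  rotate_left
  · intro t
    have h := ((hs (X 0) p t).mul_const B).mul ((hc (X 0) p t).const_sub D)
    refine h.congr_deriv ?_
    ring
  · intro t
    have h := ((((hc (X 0) p t).mul_const D).sub ((hc (X 0) p t).pow 2)).add
      ((hs (X 0) p t).pow 2)).const_mul (a * B)
    refine h.congr_deriv ?_
    push_cast
    ring
  rw [iter2 (g' := fun t => a * A * (Real.cos (a * (X 1 + t) + q) ^ 2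
        - Real.cos (a * (X 1 + t) + q) * C - Real.sin (a * (X 1 + t) + q) ^ 2))
      (g'' := fun t => a ^ 2 * A * (C * Real.sin (a * (X 1 + t) + q)
        - 4 * Real.sin (a * (X 1 + t) + q) * Real.cos (a * (X 1 + t) + q)))]
  rotate_left
  · intro t
    have h := ((hs (X 1) q t).const_mul A).mul ((hc (X 1) q t).sub_const C)
    refine h.congr_deriv ?_
    ring
  · intro t
    have h := ((((hc (X 1) q t).pow 2).sub ((hc (X 1) q t).mul_const C)).sub
      ((hs (X 1) q t).pow 2)).const_mul (a * A)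
    refine h.congr_deriv ?_
    push_cast
    ring
  simp only [add_zero]
  rw [← hA, ← hB, ← hC, ← hD]
  have : F a p q X = A * B * (D - C) := rfl
  rw [this]
  ring

lemma F_pos {X : E 2} (hX : X ∈ Tri) : 0 < F 1 0 0 X := by
  obtain ⟨h1, h2, h3⟩ := hX
  simp only [F, one_mul, add_zero]
  have hs0 : 0 < Real.sin (X 0) := Real.sin_pos_of_pos_of_lt_pi (by linarith) h3
  have hs1 : 0 < Real.sin (X 1) := Real.sin_pos_of_pos_of_lt_pi h1 (by linarith)
  have hc : Real.cos (X 0) < Real.cos (X 1) :=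
    Real.cos_lt_cos_of_nonneg_of_le_pi h1.le h3.le h2
  have : 0 < Real.cos (X 1) - Real.cos (X 0) := by linarith
  positivity

lemma isOpen_Tri : IsOpen Tri := by
  have h0 : Continuous (fun X : E 2 => X 0) := by fun_prop
  have h1 : Continuous (fun X : E 2 => X 1) := by fun_prop
  exact (isOpen_lt continuous_const h1).inter ((isOpen_lt h1 h0).inter (isOpen_lt h0 continuous_const))

lemma convex_Tri : Convex ℝ Tri := by
  rintro X ⟨h1, h2, h3⟩ Y ⟨k1, k2, k3⟩ a b ha hb hab
  simp only [Tri, Set.mem_ofPred_eq, PiLp.add_apply, PiLp.smul_apply, smul_eq_mul]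
  have hπ : Real.pi = a * Real.pi + b * Real.pi := by rw [← add_mul, hab, one_mul]
  rcases ha.eq_or_lt with rfl | ha'
  · have hb1 : b = 1 := by linarith
    subst hb1
    exact ⟨by linarith, by linarith, by linarith⟩
  · refine ⟨?_, ?_, ?_⟩
    · have := mul_pos ha' h1
      have := mul_nonneg hb k1.le
      linarith
    · have := mul_lt_mul_of_pos_left h2 ha'
      have := mul_le_mul_of_nonneg_left k2.le hb
      linarith
    · have := mul_lt_mul_of_pos_left h3 ha'
      have := mul_le_mul_of_nonneg_left k3.le hb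
      linarith

/-- The closed triangle. -/
def cTri : Set (E 2) := {X | 0 ≤ X 1 ∧ X 1 ≤ X 0 ∧ X 0 ≤ Real.pi}

lemma isClosed_cTri : IsClosed cTri := by
  have h0 : Continuous (fun X : E 2 => X 0) := by fun_prop
  have h1 : Continuous (fun X : E 2 => X 1) := by fun_prop
  exact (isClosed_le continuous_const h1).inter
    ((isClosed_le h1 h0).inter (isClosed_le h0 continuous_const))

lemma closure_sub : closure Tri ⊆ cTri :=
  closure_minimal (fun _ h => ⟨h.1.le, h.2.1.le, h.2.2.le⟩) isClosed_cTri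

lemma bounded_cTri : Bornology.IsBounded cTri := by
  rw [isBounded_iff_forall_norm_le]
  refine ⟨Real.pi + Real.pi, fun X hX => ?_⟩
  obtain ⟨h1, h2, h3⟩ := hX
  rw [EuclideanSpace.norm_eq, Real.sqrt_le_left (by positivity), Fin.sum_univ_two]
  simp only [Real.norm_eq_abs, sq_abs]
  have e0 : 0 ≤ X 0 := h1.trans h2
  nlinarith [Real.pi_pos]

lemma frontier_zero {X : E 2} (hX : X ∈ frontier Tri) : F 1 0 0 X = 0 := by
  have hc := closure_sub (frontier_subset_closure hX)
  have hn : X ∉ Tri := by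
    have := isOpen_Tri.frontier_eq ▸ hX
    exact this.2
  obtain ⟨h1, h2, h3⟩ := hc
  simp only [F, one_mul, add_zero]
  rcases h1.eq_or_lt with h | h
  · rw [← h]; simp
  rcases h2.eq_or_lt with h' | h'
  · rw [h']; simp
  rcases h3.eq_or_lt with h'' | h''
  · rw [h'']; simp
  exact absurd ⟨h, h', h''⟩ hn

/-- One-dimensional second derivative test. -/
lemma second_deriv_nonneg {g : ℝ → ℝ} (hg : ContDiffAt ℝ 2 g 0) (hmin : IsLocalMin g 0) :
    0 ≤ iteratedDeriv 2 g 0 := by
  by_contra hneg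
  push Not at hneg
  have h2 : iteratedDeriv 2 g 0 = deriv (deriv g) 0 := by
    rw [iteratedDeriv_succ, iteratedDeriv_one]
  have hmax : IsLocalMax g 0 := by
    apply isLocalMax_of_deriv_deriv_neg
    · rw [← h2]; exact hneg
    · exact hmin.deriv_eq_zero
    · exact hg.continuousAt
  have hconst : g =ᶠ[𝓝 0] fun _ => g 0 := by
    filter_upwards [hmin, hmax] with x h1 h3
    exact le_antisymm h3 h1
  have h4 : iteratedDeriv 2 g 0 = 0 := by
    rw [h2]
    have h5 : deriv g =ᶠ[𝓝 0] fun _ => 0 := by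
      have := hconst.deriv
      refine this.trans ?_
      apply Eventually.of_forall
      intro x
      simp
    rw [h5.deriv_eq]
    simp
  linarith

lemma line_contDiffAt {u : E 2 → ℝ} {x : E 2} (hu : ContDiffAt ℝ 2 u x) (e : E 2) :
    ContDiffAt ℝ 2 (fun t : ℝ => u (x + t • e)) 0 := by
  have h1 : ContDiff ℝ 2 (fun t : ℝ => x + t • e) := by fun_prop
  have h2 : ContDiffAt ℝ 2 u ((fun t : ℝ => x + t • e) 0) := by simpa using hu
  exact h2.comp (0 : ℝ) h1.contDiffAt

/-- No Dirichlet eigenpair of the triangle has eigenvalue below `5`. -/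
lemma eigenvalue_ge {μ : ℝ} {u : E 2 → ℝ} (hu : IsEigenpair Tri μ u) : 5 ≤ μ := by
  by_contra hlt
  push Not at hlt
  -- wlog `u` is positive somewhere
  wlog hpos : ∃ x ∈ Tri, 0 < u x generalizing u
  · obtain ⟨x, hx, hne⟩ := hu.nonzero
    have hneg : u x < 0 := by
      rcases lt_or_gt_of_ne hne with h | h
      · exact h
      · exact absurd ⟨x, hx, h⟩ hpos
    refine this (u := fun y => -u y) ⟨hu.smooth.neg, hu.cont.neg, ?_, ?_, ?_⟩ ⟨x, hx, by linarith⟩
    · intro y hy
      have h1 := hu.eqn y hy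
      have h2 : lap (fun y => -u y) y = -lap u y := by
        unfold lap
        rw [← Finset.sum_neg_distrib]
        apply Finset.sum_congr rfl
        intro i _
        have := iteratedDeriv_fun_neg (n := 2)
          (f := fun t : ℝ => u (y + t • EuclideanSpace.single i (1 : ℝ))) (a := 0)
        exact this
      rw [h2]; linarith
    · intro y hy
      rw [hu.bdry y hy]; simp
    · exact ⟨x, hx, by simpa using hne⟩
  obtain ⟨x₁, hx₁, hux₁⟩ := hpos
  -- choose the slightly larger triangle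
  obtain ⟨ε, hε0, hε1, hεμ⟩ : ∃ ε : ℝ, 0 < ε ∧ ε < 1 ∧ μ < 5 * (1 - ε) ^ 2 := by
    set ε := min (1 / 2) ((5 - μ) / 20) with hε
    have h1 : ε ≤ 1 / 2 := min_le_left _ _
    have h2 : ε ≤ (5 - μ) / 20 := min_le_right _ _
    have h3 : 0 < ε := lt_min (by norm_num) (by linarith)
    refine ⟨ε, h3, by linarith, ?_⟩
    nlinarith
  set a : ℝ := 1 - ε with ha
  set q : ℝ := ε * Real.pi / 3 with hq
  set p : ℝ := 2 * ε * Real.pi / 3 with hp
  have hπ := Real.pi_pos
  have hεπ : 0 < ε * Real.pi := by positivity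
  have ha0 : 0 < a := by simp only [ha]; linarith
  set ψ : E 2 → ℝ := F a p q with hψ
  have hψpos : ∀ X ∈ cTri, 0 < ψ X := by
    intro X hX
    obtain ⟨h1, h2, h3⟩ := hX
    simp only [hψ, F]
    have k1 : 0 < a * X 1 + q := by
      have := mul_nonneg ha0.le h1
      simp only [hq]; linarith
    have k2 : a * X 1 + q < a * X 0 + p := by
      have := mul_le_mul_of_nonneg_left h2 ha0.le
      simp only [hq, hp]; linarith
    have k3 : a * X 0 + p < Real.pi := by
      have := mul_le_mul_of_nonneg_left h3 ha0.le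
      simp only [hp, ha] at this ⊢; linarith
    have hs0 : 0 < Real.sin (a * X 0 + p) := Real.sin_pos_of_pos_of_lt_pi (by linarith) k3
    have hs1 : 0 < Real.sin (a * X 1 + q) := Real.sin_pos_of_pos_of_lt_pi k1 (by linarith)
    have hc : Real.cos (a * X 0 + p) < Real.cos (a * X 1 + q) :=
      Real.cos_lt_cos_of_nonneg_of_le_pi k1.le k3.le k2
    have : 0 < Real.cos (a * X 1 + q) - Real.cos (a * X 0 + p) := by linarith
    positivity
  have hψc : Continuous ψ := (contDiff_F a p q).continuous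
  -- maximise the quotient
  have hcomp : IsCompact (closure Tri) :=
    Metric.isCompact_of_isClosed_isBounded isClosed_closure (bounded_cTri.subset closure_sub)
  obtain ⟨z, hz, hzmax⟩ := hcomp.exists_isMaxOn ⟨x₁, subset_closure hx₁⟩
    (f := fun x => u x / ψ x)
    (hu.cont.div hψc.continuousOn (fun x hx => (hψpos x (closure_sub hx)).ne'))
  have hzmax' : ∀ y ∈ closure Tri, u y / ψ y ≤ u z / ψ z := fun y hy => hzmax hy
  set M : ℝ := u z / ψ z with hM
  have hψz := hψpos z (closure_sub hz)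
  have hMpos : 0 < M :=
    lt_of_lt_of_le (div_pos hux₁ (hψpos x₁ (closure_sub (subset_closure hx₁))))
      (hzmax' x₁ (subset_closure hx₁))
  have huz : u z = M * ψ z := by rw [hM]; field_simp
  have hzin : z ∈ Tri := by
    by_contra hn
    have : z ∈ frontier Tri := by
      rw [isOpen_Tri.frontier_eq]; exact ⟨hz, hn⟩
    have h0 := hu.bdry z this
    rw [h0] at huz
    have : 0 < M * ψ z := mul_pos hMpos hψz
    linarith
  have hnhds : Tri ∈ 𝓝 z := isOpen_Tri.mem_nhds hzin
  have huc : ContDiffAt ℝ 2 u z := hu.smooth.contDiffAt hnhds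
  have hψcd : ContDiffAt ℝ 2 ψ z := (contDiff_F a p q).contDiffAt
  -- second derivative test in each direction
  have hdir : ∀ e : E 2, iteratedDeriv 2 (fun t : ℝ => u (z + t • e)) 0 ≤
      M * iteratedDeriv 2 (fun t : ℝ => ψ (z + t • e)) 0 := by
    intro e
    have hgu := line_contDiffAt huc e
    have hgψ := line_contDiffAt hψcd e
    have hmin : IsLocalMin (fun t : ℝ => M * ψ (z + t • e) - u (z + t • e)) 0 := by
      have hcont : ContinuousAt (fun t : ℝ => z + t • e) 0 := by fun_prop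
      have h1 : ∀ᶠ t in 𝓝 (0 : ℝ), z + t • e ∈ Tri := by
        apply hcont.eventually_mem
        simpa using hnhds
      filter_upwards [h1] with t ht
      have h2 := hzmax' _ (subset_closure ht)
      have h3 := hψpos _ (closure_sub (subset_closure ht))
      rw [div_le_iff₀ h3] at h2
      simp only [zero_smul, add_zero]
      linarith
    have h4 := second_deriv_nonneg (g := fun t : ℝ => M * ψ (z + t • e) - u (z + t • e))
      ((contDiffAt_const.mul hgψ).sub hgu) hmin
    have h5 : iteratedDeriv 2 (fun t : ℝ => M * ψ (z + t • e) - u (z + t • e)) 0 =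
        iteratedDeriv 2 (fun t : ℝ => M * ψ (z + t • e)) 0 -
        iteratedDeriv 2 (fun t : ℝ => u (z + t • e)) 0 := by
      have := iteratedDeriv_sub (n := 2) (x := (0 : ℝ)) (f := fun t : ℝ => M * ψ (z + t • e))
        (g := fun t : ℝ => u (z + t • e)) (contDiffAt_const.mul hgψ) hgu
      exact this
    have h6 : iteratedDeriv 2 (fun t : ℝ => M * ψ (z + t • e)) 0 =
        M * iteratedDeriv 2 (fun t : ℝ => ψ (z + t • e)) 0 :=
      iteratedDeriv_const_mul M hgψ
    rw [h5, h6] at h4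
    linarith
  have hlap : lap u z ≤ M * lap ψ z := by
    unfold lap
    rw [Finset.mul_sum]
    exact Finset.sum_le_sum (fun i _ => hdir _)
  have h7 := hu.eqn z hzin
  have h8 : lap ψ z = -5 * a ^ 2 * ψ z := lap_F a p q z
  rw [h8] at hlap
  have h9 : μ * u z < 5 * a ^ 2 * u z := mul_lt_mul_of_pos_right hεμ (by rw [huz]; positivity)
  rw [huz] at h9 h7
  nlinarith

/-- The eigenfunction. -/
noncomputable def phi (X : E 2) : ℝ := (3 * Real.sqrt 3 / 4) * F 1 0 0 X

lemma phi_pos {X : E 2} (hX : X ∈ Tri) : 0 < phi X := by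
  have := F_pos hX
  unfold phi
  positivity

lemma lap_phi (X : E 2) : lap phi X = -5 * phi X := by
  have h1 : lap phi X = (3 * Real.sqrt 3 / 4) * lap (F 1 0 0) X := by
    unfold lap phi
    rw [Finset.mul_sum]
    apply Finset.sum_congr rfl
    intro i _
    exact iteratedDeriv_const_mul _ (line_contDiffAt (contDiff_F 1 0 0).contDiffAt _)
  rw [h1, lap_F]
  unfold phi
  ring

lemma tri_nonempty : Tri.Nonempty := by
  refine ⟨!₂[2, 1], ?_, ?_, ?_⟩
  · simp
  · simp
  · have := Real.pi_gt_three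
    simp; linarith

lemma phi_pair : IsEigenpair Tri 5 phi where
  smooth := (contDiff_const.mul (contDiff_F 1 0 0)).contDiffOn
  cont := (contDiff_const.mul (contDiff_F 1 0 0)).continuous.continuousOn
  eqn := fun x _ => by rw [lap_phi]; ring
  bdry := fun x hx => by unfold phi; rw [frontier_zero hx, mul_zero]
  nonzero := by
    obtain ⟨x, hx⟩ := tri_nonempty
    exact ⟨x, hx, (phi_pos hx).ne'⟩

lemma phi_le_one {X : E 2} (hX : X ∈ Tri) : phi X ≤ 1 := by
  obtain ⟨h1, h2, h3⟩ := hX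
  set u := (X 0 + X 1) / 2 with hu
  set v := (X 0 - X 1) / 2 with hv
  have e0 : X 0 = u + v := by simp only [hu, hv]; ring
  have e1 : X 1 = u - v := by simp only [hu, hv]; ring
  have hF : F 1 0 0 X = 2 * Real.sin u * Real.sin v * (Real.sin u ^ 2 - Real.sin v ^ 2) := by
    simp only [F, one_mul, add_zero]
    rw [e0, e1, Real.sin_add, Real.sin_sub, Real.cos_add, Real.cos_sub]
    have hcu := Real.sin_sq_add_cos_sq u
    have hcv := Real.sin_sq_add_cos_sq v
    have k1 : Real.cos u ^ 2 = 1 - Real.sin u ^ 2 := by linarith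
    have k2 : Real.cos v ^ 2 = 1 - Real.sin v ^ 2 := by linarith
    have : (Real.sin u * Real.cos v + Real.cos u * Real.sin v) *
        (Real.sin u * Real.cos v - Real.cos u * Real.sin v) *
        (Real.cos u * Real.cos v + Real.sin u * Real.sin v -
          (Real.cos u * Real.cos v - Real.sin u * Real.sin v)) =
        2 * Real.sin u * Real.sin v * (Real.sin u ^ 2 * Real.cos v ^ 2 -
          Real.cos u ^ 2 * Real.sin v ^ 2) := by ring
    rw [this, k1, k2]
    ring
  have hπ := Real.pi_pos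
  have hP0 : 0 < Real.sin u := Real.sin_pos_of_pos_of_lt_pi (by linarith) (by linarith)
  have hQ0 : 0 < Real.sin v := Real.sin_pos_of_pos_of_lt_pi (by linarith) (by linarith)
  have hP1 : Real.sin u ≤ 1 := Real.sin_le_one u
  set P := Real.sin u
  set Q := Real.sin v
  have hFpos := F_pos (X := X) ⟨h1, h2, h3⟩
  rw [hF] at hFpos
  have hPQ : Q < P := by
    by_contra h
    push Not at h
    have : P ^ 2 - Q ^ 2 ≤ 0 := by nlinarith
    have : 2 * P * Q * (P ^ 2 - Q ^ 2) ≤ 0 :=
      mul_nonpos_of_nonneg_of_nonpos (by positivity) this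
    linarith
  have hQ1 : Q < 1 := lt_of_lt_of_le hPQ hP1
  have k3 : P * Q * (P ^ 2 - Q ^ 2) ≤ Q - Q ^ 3 := by
    have : Q - Q ^ 3 - P * Q * (P ^ 2 - Q ^ 2) = Q * (1 - P) * ((1 + P + P ^ 2) - Q ^ 2) := by ring
    have h4 : 0 ≤ Q * (1 - P) * ((1 + P + P ^ 2) - Q ^ 2) := by
      apply mul_nonneg (mul_nonneg hQ0.le (by linarith))
      nlinarith
    linarith
  have hs3 : Real.sqrt 3 ^ 2 = 3 := Real.sq_sqrt (by norm_num)
  set r := Real.sqrt 3
  have hr : 0 < r := by positivity
  have k4 : (3 * r / 2) * (Q - Q ^ 3) ≤ 1 := by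
    have h5 : 0 ≤ (r * Q - 1) ^ 2 * (r * Q + 2) := by positivity
    have h6 : (r * Q - 1) ^ 2 * (r * Q + 2) = r ^ 2 * (r * Q ^ 3) - 3 * (r * Q) + 2 := by ring
    rw [h6, hs3] at h5
    linarith
  unfold phi
  rw [hF]
  have h7 : (3 * r / 4) * (2 * P * Q * (P ^ 2 - Q ^ 2)) = (3 * r / 2) * (P * Q * (P ^ 2 - Q ^ 2)) := by
    ring
  rw [h7]
  exact (mul_le_mul_of_nonneg_left k3 (by positivity)).trans k4

/-- Points of the symmetry axis. -/
noncomputable def pt (s : ℝ) : E 2 := !₂[Real.pi / 2 + s, Real.pi / 2 - s]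

lemma pt_mem {s : ℝ} (h0 : 0 < s) (h1 : s < Real.pi / 2) : pt s ∈ Tri := by
  refine ⟨?_, ?_, ?_⟩
  · simp [pt]; linarith
  · simp [pt]; linarith
  · simp [pt]; linarith

lemma phi_pt (s : ℝ) : phi (pt s) = (3 * Real.sqrt 3 / 2) * (Real.cos s ^ 2 * Real.sin s) := by
  have h0 : (pt s) 0 = s + Real.pi / 2 := by simp [pt]; ring
  have h1 : (pt s) 1 = Real.pi / 2 - s := by simp [pt]
  unfold phi F
  rw [h0, h1]
  simp only [one_mul, add_zero]
  rw [Real.sin_add_pi_div_two, Real.sin_pi_div_two_sub, Real.cos_pi_div_two_sub,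
    Real.cos_add_pi_div_two]
  ring

lemma not_convex : ¬ ConvexOn ℝ Tri (fun x => Real.sqrt (-Real.log (phi x))) := by
  intro hconv
  have hs3 : Real.sqrt 3 ^ 2 = 3 := Real.sq_sqrt (by norm_num)
  have hs2 : Real.sqrt 2 ^ 2 = 2 := Real.sq_sqrt (by norm_num)
  have hr3 : 0 < Real.sqrt 3 := by positivity
  have hr2 : 0 < Real.sqrt 2 := by positivity
  have hπ := Real.pi_pos
  -- the base point
  set s₀ := Real.arcsin (1 / Real.sqrt 3) with hs₀
  have hle : 1 / Real.sqrt 3 ≤ Real.sqrt 2 / 2 := by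
    rw [div_le_div_iff₀ hr3 (by norm_num)]
    nlinarith
  have hle1 : Real.sqrt 2 / 2 ≤ 1 := by nlinarith
  have hsin0 : Real.sin s₀ = 1 / Real.sqrt 3 :=
    Real.sin_arcsin (by have : 0 < 1 / Real.sqrt 3 := by positivity
                        linarith) (by linarith)
  have hs₀pos : 0 < s₀ := Real.arcsin_pos.mpr (by positivity)
  have hs₀le : s₀ ≤ Real.pi / 4 := by
    have h1 : Real.arcsin (Real.sqrt 2 / 2) = Real.pi / 4 := by
      rw [← Real.sin_pi_div_four, Real.arcsin_sin] <;> linarith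
    rw [← h1]
    exact Real.arcsin_le_arcsin hle
  have hcos0 : Real.cos s₀ = Real.sqrt 2 / Real.sqrt 3 := by
    have h1 : 0 ≤ Real.cos s₀ := Real.cos_arcsin_nonneg _
    have h2 : Real.cos s₀ ^ 2 = (Real.sqrt 2 / Real.sqrt 3) ^ 2 := by
      have := Real.sin_sq_add_cos_sq s₀
      rw [hsin0] at this
      rw [div_pow, hs3] at this ⊢
      rw [hs2]
      linarith
    exact (pow_left_inj₀ h1 (by positivity) two_ne_zero).mp h2
  -- the step
  set h := Real.arcsin (56 / 785) with hh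
  have hsinh : Real.sin h = 56 / 785 := Real.sin_arcsin (by norm_num) (by norm_num)
  have hhpos : 0 < h := Real.arcsin_pos.mpr (by norm_num)
  have hcosh : Real.cos h = 783 / 785 := by
    have h1 : 0 ≤ Real.cos h := Real.cos_arcsin_nonneg _
    have h2 : Real.cos h ^ 2 = (783 / 785 : ℝ) ^ 2 := by
      have := Real.sin_sq_add_cos_sq h
      rw [hsinh] at this
      linarith
    exact (pow_left_inj₀ h1 (by norm_num) two_ne_zero).mp h2
  have hhle : h ≤ Real.pi / 2 := Real.arcsin_le_pi_div_two _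
  have hhle' : h ≤ Real.pi / 2 * (56 / 785) := by
    have h1 := Real.mul_le_sin hhpos.le hhle
    rw [hsinh] at h1
    have h2 : Real.pi / 2 * (2 / Real.pi * h) = h := by field_simp
    rw [← h2]
    exact mul_le_mul_of_nonneg_left h1 (by positivity)
  have hcos2 : Real.cos (2 * h) = 609953 / 616225 := by
    rw [Real.cos_two_mul, hcosh]; norm_num
  have hsin2 : Real.sin (2 * h) = 87696 / 616225 := by
    rw [Real.sin_two_mul, hcosh, hsinh]; norm_num
  -- values of phi
  have hval : ∀ k : ℝ, phi (pt (s₀ + k)) =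
      (Real.sqrt 2 * Real.cos k - Real.sin k) ^ 2 * (Real.cos k + Real.sqrt 2 * Real.sin k) / 2 := by
    intro k
    rw [phi_pt, Real.cos_add, Real.sin_add, hsin0, hcos0]
    have e1 : (3 * Real.sqrt 3 / 2) * ((Real.sqrt 2 / Real.sqrt 3 * Real.cos k -
        1 / Real.sqrt 3 * Real.sin k) ^ 2 * (1 / Real.sqrt 3 * Real.cos k +
        Real.sqrt 2 / Real.sqrt 3 * Real.sin k)) = 3 / Real.sqrt 3 ^ 2 *
        ((Real.sqrt 2 * Real.cos k - Real.sin k) ^ 2 * (Real.cos k + Real.sqrt 2 * Real.sin k)) / 2 := by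
      field_simp
    rw [e1, hs3]
    ring
  have hval0 : phi (pt s₀) = 1 := by
    have := hval 0
    rw [add_zero, Real.cos_zero, Real.sin_zero] at this
    rw [this]
    simp only [mul_one, sub_zero, mul_zero, add_zero]
    rw [hs2]; norm_num
  have hb1 : 1.41421356 < Real.sqrt 2 := by
    rw [Real.lt_sqrt (by norm_num)]; norm_num
  have hb2 : Real.sqrt 2 < 1.41421357 := by
    rw [Real.sqrt_lt' (by norm_num)]; norm_num
  have hval1 : phi (pt (s₀ + h)) ≤ (783 / 785) ^ 3 - 3 / 2 * (783 / 785) * (56 / 785) ^ 2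
      + 1.41421357 / 2 * (56 / 785) ^ 3 := by
    rw [hval, hcosh, hsinh]
    have : (Real.sqrt 2 * (783 / 785) - 56 / 785) ^ 2 * (783 / 785 + Real.sqrt 2 * (56 / 785)) / 2 =
      Real.sqrt 2 ^ 2 / 2 * (783 / 785) ^ 3 + (783 / 785) ^ 2 * (56 / 785) * (Real.sqrt 2 *
        (Real.sqrt 2 ^ 2) / 2 - Real.sqrt 2) + (783 / 785) * (56 / 785) ^ 2 * (1 / 2 - Real.sqrt 2 ^ 2)
        + Real.sqrt 2 / 2 * (56 / 785) ^ 3 := by ring
    rw [this, hs2]
    linarith
  have hval2 : (609953 / 616225) ^ 3 - 3 / 2 * (609953 / 616225) * (87696 / 616225) ^ 2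
      + 1.41421356 / 2 * (87696 / 616225) ^ 3 ≤ phi (pt (s₀ + 2 * h)) := by
    rw [hval, hcos2, hsin2]
    have : (Real.sqrt 2 * (609953 / 616225) - 87696 / 616225) ^ 2 *
        (609953 / 616225 + Real.sqrt 2 * (87696 / 616225)) / 2 =
      Real.sqrt 2 ^ 2 / 2 * (609953 / 616225) ^ 3 + (609953 / 616225) ^ 2 * (87696 / 616225) *
        (Real.sqrt 2 * (Real.sqrt 2 ^ 2) / 2 - Real.sqrt 2) + (609953 / 616225) *
        (87696 / 616225) ^ 2 * (1 / 2 - Real.sqrt 2 ^ 2)
        + Real.sqrt 2 / 2 * (87696 / 616225) ^ 3 := by ring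
    rw [this, hs2]
    linarith
  have hm0 : pt s₀ ∈ Tri := pt_mem hs₀pos (by linarith)
  have hm1 : pt (s₀ + h) ∈ Tri := pt_mem (by linarith) (by nlinarith)
  have hm2 : pt (s₀ + 2 * h) ∈ Tri := pt_mem (by linarith) (by nlinarith)
  have hp1 := phi_pos hm1
  have hp2 := phi_pos hm2
  have hstrict : phi (pt (s₀ + h)) ^ 4 < phi (pt (s₀ + 2 * h)) := by
    calc phi (pt (s₀ + h)) ^ 4 ≤ ((783 / 785) ^ 3 - 3 / 2 * (783 / 785) * (56 / 785) ^ 2
      + 1.41421357 / 2 * (56 / 785) ^ 3) ^ 4 := pow_le_pow_left₀ hp1.le hval1 4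
      _ < (609953 / 616225) ^ 3 - 3 / 2 * (609953 / 616225) * (87696 / 616225) ^ 2
      + 1.41421356 / 2 * (87696 / 616225) ^ 3 := by norm_num
      _ ≤ _ := hval2
  -- midpoint inequality
  have hmid := hconv.2 hm0 hm2 (by norm_num : (0 : ℝ) ≤ 1 / 2) (by norm_num : (0 : ℝ) ≤ 1 / 2)
    (by norm_num)
  have hcomb : (1 / 2 : ℝ) • pt s₀ + (1 / 2 : ℝ) • pt (s₀ + 2 * h) = pt (s₀ + h) := by
    ext i
    fin_cases i
    · simp [pt]; ring
    · simp [pt]; ring
  simp only [hcomb, hval0, Real.log_one, neg_zero, Real.sqrt_zero, smul_eq_mul, mul_zero,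
    zero_add] at hmid
  have hl1 : 0 ≤ -Real.log (phi (pt (s₀ + h))) :=
    neg_nonneg.mpr (Real.log_nonpos hp1.le (phi_le_one hm1))
  have hl2 : 0 ≤ -Real.log (phi (pt (s₀ + 2 * h))) :=
    neg_nonneg.mpr (Real.log_nonpos hp2.le (phi_le_one hm2))
  have hq1 := Real.sq_sqrt hl1
  have hq2 := Real.sq_sqrt hl2
  have hn1 := Real.sqrt_nonneg (-Real.log (phi (pt (s₀ + h))))
  have hn2 := Real.sqrt_nonneg (-Real.log (phi (pt (s₀ + 2 * h))))
  have hsq := pow_le_pow_left₀ hn1 hmid 2
  rw [mul_pow, hq1, hq2] at hsq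
  have hlog := Real.log_lt_log (by positivity) hstrict
  rw [Real.log_pow] at hlog
  push_cast at hlog
  linarith

/-- **Q1 of MP_c418e9_an is false.**  There are a bounded convex domain `Ω` in the plane (a
triangle) and a positive first Dirichlet eigenfunction `φ` of the Laplacian in `Ω` with `φ ≤ 1`
such that `√(-log φ)` is not convex on `Ω`, i.e. `φ` is not `1/2`-log-concave. -/
theorem result : ∃ (Ω : Set (E 2)) (φ : E 2 → ℝ),
    IsOpen Ω ∧ Convex ℝ Ω ∧ Ω.Nonempty ∧ Bornology.IsBounded Ω ∧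
    IsPositiveFirstEigenfunction Ω φ ∧ (∀ x ∈ Ω, φ x ≤ 1) ∧
    ¬ ConvexOn ℝ Ω (fun x => Real.sqrt (-Real.log (φ x))) :=
  ⟨Tri, phi, isOpen_Tri, convex_Tri, tri_nonempty,
    (bounded_cTri.subset (subset_closure.trans closure_sub)),
    ⟨⟨5, ⟨⟨phi, phi_pair⟩, fun _ _ h => eigenvalue_ge h⟩, phi_pair⟩, fun _ h => phi_pos h⟩,
    fun _ h => phi_le_one h, not_convex⟩

end Pool.Agent.Results.MP_c418e9_an.Triangle
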